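import Pool.Agent.MP_100d00_nt.Cnt
import Pool.Agent.MP_48b1c3_nt.H54.Mertens

/-!
At least `N / (log N) ^ (2 - δ)` integers `n ≤ N` are `k + m` with `π (k m)` prime.
-/

set_option autoImplicit false

namespace Pool.Agent.Results.MP_100d00_nt.LogSaving

open Finset Filter Pool.Agent.MP_100d00_nt

lemma pi_low {n : ℕ} (hn : 30 ≤ n) : (n : ℝ) / (2 * Real.log n) ≤ Nat.primeCounting n := by
  refine le_trans ?_ (Chebyshev.pi_ge n)
  have h0 : (30 : ℝ) ≤ n := by exact_mod_cast hn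
  have h1 : 0 < Real.log n := Real.log_pos (by linarith)
  have h2 := Real.log_le_sub_one_of_pos (x := ((n : ℝ) + 1) / 8) (by positivity)
  rw [Real.log_div (by positivity) (by norm_num), show (8 : ℝ) = 2 ^ 3 by norm_num,
    Real.log_pow] at h2
  have h3 := Real.log_two_gt_d9
  have h4 := Real.log_two_lt_d9
  rw [← div_div, div_le_div_iff_of_pos_right h1]
  push_cast at h2
  nlinarith

lemma super_low {x : ℕ} (hx : 30 ≤ Nat.primeCounting x) :
    (x : ℝ) / (4 * Real.log x ^ 2) ≤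
      #{p ∈ range (x + 1) | p.Prime ∧ (Nat.primeCounting p).Prime} := by
  have hc : ∀ n, Nat.primeCounting n = #{p ∈ range (n + 1) | p.Prime} := fun n =>
    Nat.count_eq_card_filter_range _ _
  have h0 : Nat.primeCounting x ≤ x := by
    rw [hc]
    refine (card_le_card (t := Icc 1 x) fun p hp => ?_).trans (by simp)
    obtain ⟨h1, h2⟩ := mem_filter.mp hp
    exact mem_Icc.mpr ⟨h2.pos, by have := mem_range.mp h1; omega⟩
  have h1 : Nat.primeCounting (Nat.primeCounting x) ≤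
      #{p ∈ range (x + 1) | p.Prime ∧ (Nat.primeCounting p).Prime} := by
    rw [hc]
    refine card_le_card_of_injOn (fun q => Nat.nth Nat.Prime (q - 1)) (fun q hq => ?_)
      fun q hq q' hq' h => ?_
    · obtain ⟨h2, h3⟩ := mem_filter.mp (mem_coe.mp hq)
      have h2 := mem_range.mp h2
      have h4 := h3.pos
      have h5 : (Nat.nth Nat.Prime (q - 1)).Prime := Nat.prime_nth_prime _
      refine mem_coe.mpr (mem_filter.mpr ⟨mem_range.mpr (Nat.nth_lt_of_lt_count ?_), h5, ?_⟩)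
      · change q - 1 < Nat.primeCounting x
        omega
      · have h6 : Nat.primeCounting (Nat.nth Nat.Prime (q - 1)) = q := by
          change Nat.count Nat.Prime (_ + 1) = q
          rw [Nat.count_succ, if_pos h5, Nat.count_nth_of_infinite Nat.infinite_setOfPred_prime]
          omega
        rwa [h6]
    · have h2 := Nat.nth_injective Nat.infinite_setOfPred_prime h
      have := (mem_filter.mp (mem_coe.mp hq)).2.pos
      have := (mem_filter.mp (mem_coe.mp hq')).2.pos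
      omega
  have h2 := pi_low hx
  have h3 := pi_low (hx.trans h0)
  have h4 : (30 : ℝ) ≤ Nat.primeCounting x := by exact_mod_cast hx
  have h5 : (Nat.primeCounting x : ℝ) ≤ x := by exact_mod_cast h0
  have h6 : 0 < Real.log (Nat.primeCounting x) := Real.log_pos (by linarith)
  have h7 : Real.log (Nat.primeCounting x) ≤ Real.log x := Real.log_le_log (by linarith) h5
  calc _ = (x : ℝ) / (2 * Real.log x) / (2 * Real.log x) := by rw [div_div]; congr 1; ring
    _ ≤ Nat.primeCounting x / (2 * Real.log (Nat.primeCounting x)) := by gcongr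
    _ ≤ _ := h2.trans (by exact_mod_cast h1)

lemma rho_small {ρ : ℝ} (hρ : 0 < ρ) : ∃ B : ℕ, 1 ≤ B ∧ ∀ y : ℕ, 2 ≤ y →
    ∏ l ∈ (Ioc y (y ^ B)).filter Nat.Prime, (1 - 1 / (l : ℝ)) ≤ ρ := by
  obtain ⟨C, -, hC⟩ := Pool.Agent.MP_48b1c3_nt.H54.mertens2
  refine ⟨⌈Real.exp (2 * C) / ρ⌉₊ + 1, by omega, fun y hy => ?_⟩
  set B := ⌈Real.exp (2 * C) / ρ⌉₊ + 1 with hB
  have hB1 : Real.exp (2 * C) / ρ ≤ B := (Nat.le_ceil _).trans (by rw [hB]; push_cast; linarith)
  have hB0 : (0 : ℝ) < B := by rw [hB]; positivity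
  have hyz : y ≤ y ^ B := Nat.le_self_pow (by omega) y
  have hy2 : (2 : ℝ) ≤ y := by exact_mod_cast hy
  have h1 := (abs_le.mp (hC y hy2)).2
  have h2 := (abs_le.mp (hC (y ^ B : ℕ) (hy2.trans (by exact_mod_cast hyz)))).1
  simp only [Pool.Agent.MP_48b1c3_nt.H54.PI, Nat.floor_zero, Nat.floor_natCast] at h1 h2
  rw [← Ioc_union_Ioc_eq_Ioc (Nat.zero_le y) hyz, filter_union,
    sum_union (disjoint_filter_filter (Ioc_disjoint_Ioc_of_le le_rfl)), Nat.cast_pow, Real.log_pow,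
    Real.log_mul hB0.ne' (Real.log_pos (by linarith)).ne'] at h2
  calc _ ≤ ∏ l ∈ (Ioc y (y ^ B)).filter Nat.Prime, Real.exp (-(1 / (l : ℝ))) := by
        refine prod_le_prod (fun l hl => ?_) fun l _ => Real.one_sub_le_exp_neg _
        have : (1 : ℝ) < l := by exact_mod_cast (mem_filter.mp hl).2.one_lt
        rw [sub_nonneg, div_le_one (by linarith)]; exact this.le
    _ ≤ Real.exp (2 * C - Real.log B) := by
        rw [← Real.exp_sum, sum_neg_distrib]
        exact Real.exp_le_exp.mpr (by linarith)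
    _ ≤ ρ := by
        rw [Real.exp_sub, Real.exp_log hB0, div_le_iff₀ hB0]
        rwa [div_le_iff₀ hρ, mul_comm (B : ℝ)] at hB1

lemma arith {L u v x y z w lw lx c : ℝ} (hL : u ^ 120 = L) (hu : 10 ^ 20 ≤ u) (hLv : L ≤ v)
    (hy : 2 ≤ y) (hyz : y ≤ z) (hz : z ≤ u) (hw0 : 0 ≤ w) (hw : w ≤ v) (hlw : L / 40 ≤ lw)
    (hx : y * v ^ 20 / 2 ≤ x) (hlx0 : 0 < lx) (hlx : lx ≤ 2 * L)
    (h : x / (4 * lx ^ 2) ≤ 3 * c + (w + 1 + z * (z + 1)) + 96 * (1 / 19660800) * (x + v ^ 2) / lw ^ 2 +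
      2 * y * v ^ 2 * w ^ 8 + (z * y) ^ 3 *
        (v ^ 20 * (6 * (z * (z + 1)) ^ 9) ^ 3 / lw ^ 3 + 2 * w ^ 12)) :
    y * v ^ 20 / (192 * L ^ 2) ≤ c := by
  have hu1 : 1 ≤ u := le_trans (by norm_num) hu
  have huL : ∀ k, k ≤ 120 → u ^ k ≤ L := fun k hk => hL ▸ pow_le_pow_right₀ hu1 hk
  have hL5 : 10 ^ 20 ≤ L := hu.trans (by simpa using huL 1 (by norm_num))
  have hL0 : 0 < L := lt_of_lt_of_le (by norm_num) hL5
  have hv5 : 10 ^ 20 ≤ v := hL5.trans hLv
  have hv1 : 1 ≤ v := le_trans (by norm_num) hv5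
  have hvv : ∀ j k, j ≤ k → v ^ j ≤ v ^ k := fun j k h => pow_le_pow_right₀ hv1 h
  have hN : v ^ 20 ≤ x := by nlinarith [pow_pos (lt_of_lt_of_le one_pos hv1) 20]
  have hx0 : 0 ≤ x := le_trans (by positivity) hN
  have hz0 : 0 ≤ z := by linarith
  have hzz : z * (z + 1) ≤ 2 * u ^ 2 := by nlinarith
  have hzy : (z * y) ^ 3 ≤ u ^ 6 := by
    calc _ ≤ (u * u) ^ 3 := by gcongr; linarith
      _ = _ := by ring
  have t0 : x / L ^ 2 / 16 ≤ x / (4 * lx ^ 2) := by
    calc _ = x / (4 * (2 * L) ^ 2) := by field_simp; ring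
      _ ≤ _ := by gcongr
  have t1 : w + 1 + z * (z + 1) ≤ 4 * v ^ 13 := by
    have := huL 2 (by norm_num)
    have := hvv 1 13 (by norm_num)
    rw [pow_one] at this
    linarith
  have t2 : 96 * (1 / 19660800) * (x + v ^ 2) / lw ^ 2 ≤ x / L ^ 2 / 64 := by
    have := hvv 2 20 (by norm_num)
    calc _ ≤ 96 * (1 / 19660800) * (x + x) / (L / 40) ^ 2 := by gcongr; linarith
      _ = _ := by field_simp; ring
  have t3 : 2 * y * v ^ 2 * w ^ 8 ≤ 2 * v ^ 13 := by
    have := huL 1 (by norm_num)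
    rw [pow_one] at this
    calc _ ≤ 2 * v * v ^ 2 * v ^ 8 := by gcongr; linarith
      _ = 2 * v ^ 11 := by ring
      _ ≤ _ := by have := hvv 11 13 (by norm_num); linarith
  have t4 : (z * y) ^ 3 * (v ^ 20 * (6 * (z * (z + 1)) ^ 9) ^ 3 / lw ^ 3) ≤ x / L ^ 2 / 256 := by
    have e : u ≤ u ^ 60 := le_self_pow₀ hu1 (by norm_num)
    have e2 : 0 < lw := by linarith
    calc _ ≤ u ^ 6 * (x * (6 * (2 * u ^ 2) ^ 9) ^ 3 / (L / 40) ^ 3) := by gcongr
      _ = x / L ^ 2 * (216 * 2 ^ 27 * 64000 * u ^ 60 / L) := by field_simp; ring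
      _ ≤ x / L ^ 2 * (1 / 256) := by
          refine mul_le_mul_of_nonneg_left ?_ (by positivity)
          rw [div_le_div_iff₀ hL0 (by norm_num), ← hL, show u ^ 120 = u ^ 60 * u ^ 60 by ring]
          nlinarith [pow_pos (lt_of_lt_of_le one_pos hu1) 60]
      _ = _ := by ring
  have t5 : (z * y) ^ 3 * (2 * w ^ 12) ≤ 2 * v ^ 13 := by
    calc _ ≤ v * (2 * v ^ 12) := by
          gcongr
          exact hzy.trans ((huL 6 (by norm_num)).trans hLv)
      _ = _ := by ring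
  have t6 : 8 * v ^ 13 ≤ x / L ^ 2 / 256 := by
    rw [le_div_iff₀ (by norm_num), le_div_iff₀ (by positivity)]
    calc _ ≤ 8 * v ^ 13 * 256 * v ^ 2 := by gcongr
      _ = 2048 * v ^ 15 := by ring
      _ ≤ v * v ^ 15 := by gcongr; linarith
      _ = v ^ 16 := by ring
      _ ≤ _ := (hvv 16 20 (by norm_num)).trans hN
  have t7 : y * v ^ 20 / (192 * L ^ 2) ≤ x / L ^ 2 / 96 := by
    calc _ = y * v ^ 20 / 2 / L ^ 2 / 96 := by field_simp; ring
      _ ≤ _ := by gcongr
  have t8 : 0 ≤ x / L ^ 2 := by positivity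
  rw [mul_add ((z * y) ^ 3)] at h
  linarith

theorem result : ∃ δ : ℝ, 0 < δ ∧ ∃ N₀ : ℕ, ∀ N : ℕ, N₀ ≤ N →
    (N : ℝ) / Real.log N ^ (2 - δ) ≤
      ({n : ℕ | n ≤ N ∧ ∃ k m : ℕ, 0 < k ∧ 0 < m ∧ k + m = n ∧
        (Nat.primeCounting (k * m)).Prime}.ncard : ℝ) := by
  classical
  obtain ⟨B, hB, hρ⟩ := rho_small (ρ := 1 / 19660800) (by norm_num)
  have hB' : (1 : ℝ) ≤ B := by exact_mod_cast hB
  set δ : ℝ := 1 / (240 * B) with hδ
  have hδ0 : 0 < δ := by positivity
  refine ⟨δ, hδ0, eventually_atTop.mp ?_⟩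
  have hlog : Tendsto (fun N : ℕ => Real.log N) atTop atTop :=
    Real.tendsto_log_atTop.comp tendsto_natCast_atTop_atTop
  filter_upwards [((tendsto_rpow_atTop hδ0).comp hlog).eventually_ge_atTop 400,
    ((tendsto_rpow_atTop (y := 1 / 120) (by norm_num)).comp hlog).eventually_ge_atTop (10 ^ 20),
    hlog.eventually_ge_atTop 800, Nat.tendsto_primeCounting.eventually_ge_atTop 30,
    eventually_ge_atTop 1] with N e1 e2 e3 e4 e5
  simp only [Function.comp] at e1 e2
  have hcnt : {n : ℕ | n ≤ N ∧ ∃ k m : ℕ, 0 < k ∧ 0 < m ∧ k + m = n ∧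
      (Nat.primeCounting (k * m)).Prime}.ncard = cnt N := by
    rw [cnt, ← Set.ncard_coe_finset]
    congr 1
    ext n
    simp only [Good, Set.mem_ofPred_eq, coe_filter, mem_range, Nat.lt_succ_iff]
  rw [hcnt]
  set L := Real.log N with hL
  have hL0 : 0 < L := by linarith
  have hN0 : (0 : ℝ) < N := by exact_mod_cast e5
  set t := L ^ δ with ht
  set u := L ^ (1 / 120 : ℝ) with hu
  set v := Real.exp (L / 20) with hv
  have hu120 : u ^ 120 = L := by
    rw [hu, ← Real.rpow_natCast, ← Real.rpow_mul hL0.le]; norm_num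
  have htu : (t ^ 2) ^ B = u := by
    rw [ht, hu, ← pow_mul, ← Real.rpow_natCast, ← Real.rpow_mul hL0.le]
    congr 1
    rw [hδ]; push_cast; field_simp; norm_num
  have hv20 : v ^ 20 = N := by
    rw [hv, ← Real.exp_nat_mul, show ((20 : ℕ) : ℝ) * (L / 20) = L by push_cast; ring, hL,
      Real.exp_log hN0]
  have hLv : L ≤ v := by
    have := Real.quadratic_le_exp_of_nonneg (x := L / 20) (by positivity)
    nlinarith
  have hu1 : 1 ≤ u := le_trans (by norm_num) e2
  have huL : u ^ 2 ≤ L := hu120 ▸ pow_le_pow_right₀ hu1 (by norm_num)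
  have hv1 : 1 ≤ v := by linarith
  have hvN : v ^ 2 ≤ N := hv20 ▸ pow_le_pow_right₀ hv1 (by norm_num)
  set y := ⌊t ^ 2⌋₊ with hy
  have y1 : (y : ℝ) ≤ t ^ 2 := Nat.floor_le (by positivity)
  have y2 : t ^ 2 < y + 1 := Nat.lt_floor_add_one _
  have y3 : 192 * t ≤ y := by nlinarith
  have y4 : (2 : ℝ) ≤ y := by linarith
  have y5 : 2 ≤ y := by exact_mod_cast y4
  set z := y ^ B with hz
  have z1 : (z : ℝ) ≤ u := by rw [hz, ← htu]; push_cast; gcongr
  have z2 : y ≤ z := Nat.le_self_pow (by omega) y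
  have z3 : 2 * ((z : ℝ) + 1) ≤ N := by nlinarith
  have z4 : z + 1 ≤ N := by
    have : ((z + 1 : ℕ) : ℝ) ≤ N := by push_cast; linarith
    exact_mod_cast this
  set w := ⌊v⌋₊ with hw
  have w1 : (w : ℝ) ≤ v := Nat.floor_le (by positivity)
  have w2 : v < w + 1 := Nat.lt_floor_add_one _
  have w3 : 2 ≤ w := by
    have : (2 : ℝ) ≤ w := by linarith
    exact_mod_cast this
  have w4 : L / 40 ≤ Real.log w := by
    have h1 : Real.log (v / 2) ≤ Real.log w := Real.log_le_log (by positivity) (by linarith)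
    rw [Real.log_div (by positivity) two_ne_zero, hv, Real.log_exp] at h1
    have := Real.log_two_lt_d9
    linarith
  set x := y * (N - (z + 1)) with hx
  have x1 : (x : ℝ) = y * (N - (z + 1)) := by rw [hx, Nat.cast_mul, Nat.cast_sub z4]; push_cast; rfl
  have x2 : (y : ℝ) * v ^ 20 / 2 ≤ x := by rw [x1, hv20]; nlinarith
  have x3 : (N : ℝ) ≤ x := by rw [hv20] at x2; nlinarith
  have x4 : Real.log x ≤ 2 * L := by
    have h1 : (x : ℝ) ≤ N ^ 2 := by
      have : (y : ℝ) ≤ z := by exact_mod_cast z2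
      have : (0 : ℝ) ≤ z := by positivity
      rw [x1]; nlinarith
    have h2 := Real.log_le_log (by linarith) h1
    rwa [Real.log_pow] at h2
  have x5 : 0 < Real.log x := lt_of_lt_of_le hL0 (Real.log_le_log hN0 x3)
  have hM : ((∏ l ∈ (Ioc y z).filter Nat.Prime, l : ℕ) : ℝ) ≤ v ^ 2 := by
    have h1 : ∏ l ∈ (Ioc y z).filter Nat.Prime, l ≤ 4 ^ z := by
      refine le_trans ?_ (primorial_le_four_pow z)
      refine prod_le_prod_of_subset_of_one_le' (filter_subset_filter _ fun l hl => ?_)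
        fun l hl _ => (mem_filter.mp hl).2.pos
      exact mem_range.mpr (Nat.lt_succ_of_le (mem_Ioc.mp hl).2)
    have h2 : (4 : ℝ) ≤ Real.exp 2 := by
      have := Real.quadratic_le_exp_of_nonneg (x := 2) (by norm_num)
      linarith
    calc _ ≤ (4 : ℝ) ^ z := by exact_mod_cast h1
      _ ≤ Real.exp 2 ^ z := by gcongr
      _ ≤ _ := by
          rw [hv, ← Real.exp_nat_mul, ← Real.exp_nat_mul]
          refine Real.exp_le_exp.mpr ?_
          push_cast
          nlinarith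
  have key := finite_ineq ((Ioc y z).filter Nat.Prime) (x := x) (y := y) (z := z) (w := w) (N := N)
    (fun l hl => ⟨(mem_filter.mp hl).2, mem_Ioc.mp (mem_filter.mp hl).1⟩) (by omega) z2 w3
    (by rw [hx, ← Nat.mul_succ, Nat.mul_div_cancel_left _ (by omega)]; omega) (hρ y y5)
    (by norm_num) hM
  have low := super_low (x := x) (e4.trans (Nat.monotone_primeCounting (by exact_mod_cast x3)))
  have fin := arith (c := cnt N) hu120 e2 hLv y4 (by exact_mod_cast z2) z1 (by positivity) w1 w4 x2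
    x5 x4 (by
      refine low.trans ((le_of_eq (by congr!)).trans (key.trans (le_of_eq ?_)))
      rw [hv20]; push_cast; rfl)
  refine le_trans ?_ fin
  rw [hv20, Real.rpow_sub hL0, ← ht, Real.rpow_two, div_div_eq_mul_div,
    div_le_div_iff₀ (by positivity) (by positivity)]
  have : 0 ≤ (N : ℝ) * L ^ 2 := by positivity
  nlinarith

end Pool.Agent.Results.MP_100d00_nt.LogSaving
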