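import Pool.Agent.MP_100d00_nt.Core
import Pool.Agent.MP_100d00_nt.Comb

/-!
In every window of `C log₂ J` dyadic blocks below `2 ^ (J + 1)`, all blocks but a proportion `ε`
consist of `N` with at least `N / ((log N) ^ (4 / 5) (log log N) ^ 16)` integers `n ≤ N` of the form
`k + m` with `π (k m)` prime.
-/

set_option autoImplicit false

namespace Pool.Agent.Results.MP_100d00_nt.Windows

open Finset Filter Pool.Agent.MP_100d00_nt Pool.Agent.MP_100d00_nt.Core Pool.Agent.MP_100d00_nt.Comb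
open scoped Classical

lemma local_bd (B : ℕ) : ∀ᶠ j : ℕ in atTop, ∀ k : ℕ, j < 2 ^ k → 2 ^ k ≤ 4 * j → B * k ≤ j →
    (∃ N, 2 ^ j ≤ N ∧ N < 2 ^ (j + 1) ∧ Bad N) →
    (∑ t ∈ Ico (2 * k) (B * k),
      if ∃ N, 2 ^ (j - t) ≤ N ∧ N < 2 ^ (j - t + 1) ∧ Bad N then 1 / (t : ℝ) else 0) ≤ 2688 := by
  obtain ⟨x₀, hx₀⟩ := eventually_atTop.mp (core (B := 2 * (B + 2)) (by omega))
  obtain ⟨d₀, hd₀⟩ := eventually_atTop.mp primes_block
  have l1 := Real.log_two_lt_d9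
  have l2 := Real.log_two_gt_d9
  have h1 : Tendsto (fun j : ℕ => ((j : ℝ) * Real.log 2) ^ (4 / 5 : ℝ)) atTop atTop :=
    (tendsto_rpow_atTop (by norm_num)).comp
      (tendsto_natCast_atTop_atTop.atTop_mul_const (by linarith))
  filter_upwards [h1.eventually_ge_atTop 96, eventually_ge_atTop x₀, eventually_ge_atTop (2 ^ d₀),
    eventually_ge_atTop (2 ^ 7)] with j e1 e2 e3 e4
  rintro k k1 k2 k3 ⟨N₀, n1, n2, n3⟩
  have k4 : d₀ < k := (Nat.pow_lt_pow_iff_right one_lt_two).mp (e3.trans_lt k1)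
  have k5 : 7 < k := (Nat.pow_lt_pow_iff_right one_lt_two).mp (e4.trans_lt k1)
  have j1 : (128 : ℝ) ≤ j := by exact_mod_cast e4
  have j2 : 1 ≤ (j : ℝ) * Real.log 2 := by nlinarith
  set A := ((j : ℝ) * Real.log 2) ^ (4 / 5 : ℝ) with hA
  have A1 : A ≤ j := by
    have := Real.rpow_le_rpow_of_exponent_le j2 (show (4 / 5 : ℝ) ≤ 1 by norm_num)
    rw [Real.rpow_one] at this
    nlinarith
  have A0 : ⌊A / 96⌋₊ ≠ 0 := by
    have : 1 ≤ ⌊A / 96⌋₊ := Nat.le_floor (by push_cast; linarith)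
    omega
  set s := Nat.log 2 ⌊A / 96⌋₊ with hs
  have s1 : (2 : ℝ) ^ s ≤ A / 96 :=
    le_trans (by exact_mod_cast Nat.pow_log_le_self 2 A0) (Nat.floor_le (by positivity))
  have s2 : A / 96 ≤ 2 * 2 ^ s := by
    have e : ⌊A / 96⌋₊ + 1 ≤ 2 * 2 ^ s := by
      rw [← pow_succ']; exact Nat.lt_pow_succ_log_self one_lt_two _
    exact (Nat.lt_floor_add_one _).le.trans (by exact_mod_cast e)
  have s3 : 2 ^ s ≤ j := by
    have : (2 : ℝ) ^ s ≤ j := by linarith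
    exact_mod_cast this
  have s4 : s < k := (Nat.pow_lt_pow_iff_right one_lt_two).mp (s3.trans_lt k1)
  have s5 : s < j := Nat.lt_two_pow_self.trans_le s3
  have s6 : (s : ℝ) ≤ j := by exact_mod_cast s5.le
  have s7 : (0 : ℝ) ≤ s := by positivity
  clear_value s
  have hL : Real.log (2 ^ (j + s) : ℕ) = (j + s) * Real.log 2 := by
    push_cast; rw [Real.log_pow]; push_cast; rfl
  have L1 : (j : ℝ) * Real.log 2 ≤ (j + s) * Real.log 2 := by gcongr; linarith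
  have L2 : ((j : ℝ) + s) * Real.log 2 ≤ 2 * (j * Real.log 2) := by nlinarith
  set S := {t ∈ Ico (2 * k) (B * k) | ∃ N, 2 ^ (j - t) ≤ N ∧ N < 2 ^ (j - t + 1) ∧ Bad N} with hS
  set b := fun t : ℕ => (Ioc (2 ^ (t + s + 4)) (2 ^ (t + s + 4 + 3))).filter Nat.Prime with hb
  have key := hx₀ (2 ^ (j + s)) (by have := @Nat.lt_two_pow_self (j + s); omega) (S.biUnion b)
    (fun p hp => by
      obtain ⟨t, t1, t2⟩ := mem_biUnion.mp hp
      obtain ⟨t3, N, f1, f2, f3⟩ := mem_filter.mp t1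
      obtain ⟨t4, t5⟩ := mem_Ico.mp t3
      obtain ⟨t6, t7⟩ := mem_filter.mp t2
      obtain ⟨t8, t9⟩ := mem_Ioc.mp t6
      obtain ⟨u, hu⟩ : ∃ u, j = u + t := ⟨j - t, by omega⟩
      rw [show j - t = u by omega] at f1 f2
      rw [hL]
      refine ⟨t7, ?_, ?_, N, ?_, ?_, f3⟩
      · have g1 : (2 * j) ^ 2 < p := by
          calc _ ≤ (2 * 2 ^ k) ^ 2 := by gcongr
            _ = 2 ^ (2 * k + 2) := by ring
            _ ≤ 2 ^ (t + s + 4) := Nat.pow_le_pow_right two_pos (by omega)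
            _ < _ := t8
        have g2 : (2 * j : ℝ) ^ 2 < p := by exact_mod_cast g1
        exact lt_of_le_of_lt (pow_le_pow_left₀ (by linarith) (by nlinarith only [L2, l1, j1]) 2) g2
      · have g1 : p ≤ (4 * j) ^ (B + 2) := by
          calc _ ≤ 2 ^ (k * (B + 2)) := t9.trans (Nat.pow_le_pow_right two_pos (by
                rw [mul_add, mul_comm k B]; omega))
            _ ≤ _ := by rw [pow_mul]; gcongr
        have g2 : (p : ℝ) ≤ (4 * j) ^ (B + 2) := by exact_mod_cast g1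
        rw [pow_mul]
        refine g2.trans (pow_le_pow_left₀ (by positivity) ?_ _)
        calc (4 * j : ℝ) ≤ (j / 2) ^ 2 := by nlinarith only [j1]
          _ ≤ _ := pow_le_pow_left₀ (by positivity) (by nlinarith only [L1, l2, j1]) 2
      · calc _ ≤ 2 ^ u * 2 ^ (t + s + 4) := by rw [hu]; ring_nf; omega
          _ ≤ _ := Nat.mul_le_mul f1 t8.le
      · calc _ ≤ 2 ^ (u + 1) * 2 ^ (t + s + 4 + 3) := Nat.mul_le_mul f2.le t9
          _ = _ := by rw [hu]; ring)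
    ⟨N₀, by
      have g1 : (2 : ℝ) ^ j ≤ N₀ := by exact_mod_cast n1
      have g2 : (N₀ : ℝ) ≤ 2 * 2 ^ j := by rw [← pow_succ']; exact_mod_cast n2.le
      have g3 : A ≤ ((j + s) * Real.log 2) ^ (4 / 5 : ℝ) :=
        Real.rpow_le_rpow (by linarith) L1 (by norm_num)
      have g4 : (((j : ℝ) + s) * Real.log 2) ^ (4 / 5 : ℝ) ≤ 2 * A := by
        refine (Real.rpow_le_rpow (by linarith) L2 (by norm_num)).trans ?_
        rw [Real.mul_rpow (by norm_num) (by linarith)]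
        have := Real.rpow_le_rpow_of_exponent_le one_le_two (show (4 / 5 : ℝ) ≤ 1 by norm_num)
        rw [Real.rpow_one] at this
        gcongr
      rw [hL]
      push_cast
      refine ⟨?_, ?_, n3⟩
      · calc _ = 2 ^ j * (96 * 2 ^ s : ℝ) := by ring
          _ ≤ _ := by gcongr; linarith
      · calc _ ≤ 2 * 2 ^ j * (384 * 2 ^ s : ℝ) := by gcongr; linarith
          _ = _ := by ring⟩
  have h2 : ∑ p ∈ S.biUnion b, 1 / (p : ℝ) ≤ 28 := by
    have g1 : ∏ p ∈ S.biUnion b, (1 - 1 / (p : ℝ)) ≤ Real.exp (-∑ p ∈ S.biUnion b, 1 / (p : ℝ)) := by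
      rw [← sum_neg_distrib, Real.exp_sum]
      refine prod_le_prod (fun p hp => ?_) fun l _ => Real.one_sub_le_exp_neg _
      obtain ⟨t, -, t2⟩ := mem_biUnion.mp hp
      have : (1 : ℝ) < p := by exact_mod_cast (mem_filter.mp t2).2.one_lt
      rw [sub_nonneg, div_le_one (by linarith)]; exact this.le
    have g2 : Real.exp (-28) ≤ 1 / 163840000 := by
      rw [Real.exp_neg, one_div, show (28 : ℝ) = (28 : ℕ) * 1 by norm_num, Real.exp_nat_mul]
      have := Real.add_one_le_exp 1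
      refine inv_anti₀ (by norm_num) ?_
      calc _ ≤ (2 : ℝ) ^ 28 := by norm_num
        _ ≤ _ := by gcongr; linarith
    have := Real.exp_lt_exp.mp (g2.trans_lt (key.trans_le g1))
    linarith
  have h3 : ∑ t ∈ S, ∑ p ∈ b t, 1 / (p : ℝ) ≤ 3 * ∑ p ∈ S.biUnion b, 1 / (p : ℝ) := by
    rw [sum_comm' (t' := S.biUnion b) (s' := fun p => {t ∈ S | p ∈ b t}) (fun t p =>
      ⟨fun h => ⟨mem_filter.mpr h, mem_biUnion.mpr ⟨t, h⟩⟩, fun h => mem_filter.mp h.1⟩), mul_sum]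
    refine sum_le_sum fun p _ => ?_
    rw [sum_const, nsmul_eq_mul]
    have g1 : {t ∈ S | p ∈ b t} ⊆ Icc (Nat.clog 2 p - s - 7) (Nat.clog 2 p - s - 5) := fun t ht => by
      obtain ⟨t8, t9⟩ := mem_Ioc.mp (mem_filter.mp (mem_filter.mp ht).2).1
      rw [← Nat.lt_clog_iff_pow_lt one_lt_two] at t8
      rw [← Nat.clog_le_iff_le_pow one_lt_two] at t9
      exact mem_Icc.mpr ⟨by omega, by omega⟩
    have g2 := card_le_card g1
    rw [Nat.card_Icc] at g2
    have g3 : (#{t ∈ S | p ∈ b t} : ℝ) ≤ 3 := by exact_mod_cast (by omega : #{t ∈ S | p ∈ b t} ≤ 3)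
    gcongr
  rw [← sum_filter]
  have h4 : ∑ t ∈ S, 1 / (t : ℝ) ≤ 32 * ∑ t ∈ S, ∑ p ∈ b t, 1 / (p : ℝ) := by
    rw [mul_sum]
    refine sum_le_sum fun t ht => ?_
    obtain ⟨t4, -⟩ := mem_Ico.mp (mem_filter.mp ht).1
    have g1 := hd₀ (t + s + 4) (by omega)
    have g2 : ((t + s + 4 : ℕ) : ℝ) ≤ 2 * t := by exact_mod_cast (by omega : t + s + 4 ≤ 2 * t)
    have g3 : (0 : ℝ) < t := by exact_mod_cast (by omega : 0 < t)
    calc _ = 32 * (1 / (16 * (2 * (t : ℝ)))) := by field_simp; ring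
      _ ≤ 32 * (1 / (16 * ((t + s + 4 : ℕ) : ℝ))) := by gcongr
      _ ≤ _ := by gcongr
  linarith

theorem result : ∀ ε : ℝ, 0 < ε → ∃ C J₀ : ℕ, 0 < C ∧ ∀ J : ℕ, J₀ ≤ J →
    ({j : ℕ | j ≤ J ∧ J ≤ j + C * Nat.log 2 J ∧ ∃ N : ℕ, 2 ^ j ≤ N ∧ N < 2 ^ (j + 1) ∧
      ({n : ℕ | n ≤ N ∧ ∃ k m : ℕ, 0 < k ∧ 0 < m ∧ k + m = n ∧
        (Nat.primeCounting (k * m)).Prime}.ncard : ℝ) <
          N / (Real.log N ^ (4 / 5 : ℝ) * Real.log (Real.log N) ^ 16)}.ncard : ℝ) ≤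
      ε * (C * Nat.log 2 J) := by
  intro ε hε
  have hcnt : ∀ N, {n : ℕ | n ≤ N ∧ ∃ k m : ℕ, 0 < k ∧ 0 < m ∧ k + m = n ∧
      (Nat.primeCounting (k * m)).Prime}.ncard = cnt N := fun N => by
    rw [cnt, ← Set.ncard_coe_finset]
    congr 1
    ext n
    rw [mem_coe, mem_filter, mem_range, Nat.lt_succ_iff]
    rfl
  simp only [hcnt]
  obtain ⟨η, rfl⟩ : ∃ η, ε = 4 * η := ⟨ε / 4, by ring⟩
  have hη : 0 < η := by linarith
  obtain ⟨q, hq⟩ := exists_nat_gt (2 / η)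
  obtain ⟨K, hK⟩ := exists_nat_gt (5376 / η)
  obtain ⟨C, hC⟩ := exists_nat_gt (4 * (q : ℝ) ^ K / η)
  rw [div_lt_iff₀ hη] at hq hK hC
  have q1 : 1 ≤ q := Nat.pos_of_ne_zero (by rintro rfl; norm_num at hq)
  have C1 : 0 < C := Nat.pos_of_ne_zero (by
    rintro rfl
    have : (0 : ℝ) ≤ 4 * (q : ℝ) ^ K := by positivity
    norm_num at hC
    linarith)
  obtain ⟨j₁, hj₁⟩ := eventually_atTop.mp (local_bd (2 * q ^ K))
  refine ⟨C, 2 * j₁ + 2 ^ (8 * C + 4), C1, fun J hJ => ?_⟩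
  have J0 : J ≠ 0 := by have := Nat.two_pow_pos (8 * C + 4); omega
  have g1 : 2 ^ Nat.log 2 J ≤ J := Nat.pow_log_le_self 2 J0
  have g2 : J < 2 ^ (Nat.log 2 J + 1) := Nat.lt_pow_succ_log_self one_lt_two J
  have g3 : 8 * C + 4 ≤ Nat.log 2 J := Nat.le_log_of_pow_le one_lt_two (by omega)
  generalize Nat.log 2 J = g at *
  have g4 : 2 * (C * g + 1) ≤ J := by
    have e1 : g / 2 + 1 ≤ 2 ^ (g / 2) := Nat.lt_two_pow_self
    have e2 : 2 ^ (g / 2) * 2 ^ (g / 2) ≤ 2 ^ g := by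
      rw [← pow_add]; exact Nat.pow_le_pow_right two_pos (by omega)
    have e3 : (4 * C + 2) * (g / 2 + 1) ≤ 2 ^ (g / 2) * 2 ^ (g / 2) :=
      Nat.mul_le_mul (by omega) e1
    have e4 : C * g ≤ C * (2 * (g / 2 + 1)) := Nat.mul_le_mul_left _ (by omega)
    nlinarith
  by_contra hcon
  push Not at hcon
  set P := fun t => ∃ N, 2 ^ (J - t) ≤ N ∧ N < 2 ^ (J - t + 1) ∧ Bad N with hP
  have g5 : (1 : ℝ) ≤ C * g := by
    exact_mod_cast Nat.mul_pos C1 (by omega : 0 < g)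
  obtain ⟨τ, t1, t2, t3⟩ := sun P (M := C * g + 1) hη (by
    refine lt_of_le_of_lt (by push_cast; nlinarith) (hcon.trans_le ?_)
    rw [Nat.count_eq_card_filter_range, ← Set.ncard_coe_finset, Nat.cast_le]
    refine Set.ncard_le_ncard_of_injOn (fun j => J - j) (fun j ⟨a1, a2, a3⟩ => ?_)
      (fun j ⟨a1, _⟩ j' ⟨a2, _⟩ h => by simp only at h; omega)
    rw [mem_coe, mem_filter, mem_range, hP]
    refine ⟨by omega, ?_⟩
    simp only [Nat.sub_sub_self a1]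
    exact a3)
  have t4 : τ + 2 * (g + 1) * q ^ K ≤ C * g + 1 := by
    have e1 : (1 : ℝ) ≤ g := by exact_mod_cast (by omega : 1 ≤ g)
    have e2 : (0 : ℝ) ≤ (q : ℝ) ^ K := by positivity
    have : (τ : ℝ) + 2 * (g + 1) * q ^ K ≤ C * g + 1 := by
      push_cast at t2
      nlinarith
    exact_mod_cast this
  have t5 : 0 < 2 * (g + 1) * q ^ K := by positivity
  have t6 := scales (fun t => P (τ + t)) (w := 2 * (g + 1)) (by omega) q1 (by linarith) K
    fun s hs => t3 s (by omega)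
  have t8 : 2 * j₁ ≤ J := (Nat.le_add_right _ _).trans hJ
  have t7 := hj₁ (J - τ) (by omega) (g + 1) (by omega) (by rw [pow_succ 2 g]; omega)
    (by rw [mul_right_comm]; generalize 2 * (g + 1) * q ^ K = u at t4; omega) (by
      have := t3 1 (by omega)
      rw [Nat.count_one] at this
      by_contra h
      rw [if_neg (show ¬ P (τ + 0) from h)] at this
      norm_num at this
      linarith)
  simp only [hP, Nat.sub_add_eq] at t6
  rw [mul_right_comm] at t7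
  have := t6.trans (le_trans (le_of_eq (by congr!)) t7)
  linarith

end Pool.Agent.Results.MP_100d00_nt.Windows
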